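import Pool.Agent.Helper99.PD.ParL

/-!
# Project PD (MP_e66f84_ag), block P2: the counting theorem `StmtCountL`
-/

set_option autoImplicit false

namespace Pool.Agent.PD99

open Filter Topology
open Pool.Agent.HG (BadT Special)
open Pool.Agent.MP (SysR)
open Pool.Agent.Helper99.HG (CD pf Nm pr mem_pf log_ge_one zz zz_two log_zz_le le_log_zz)
open Pool.Agent.Helper99.ML (SysW mem_pr nm_le_Nm Nm_pos BTb MertK countK_le99 smoothK99 res
  mem_Ex_res up mem_up val_mem_up sum_up card_up up_mono Nm_up sys_res BT_res pf_up)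
open Pool.Agent.MLT99 (TBKt TBt_res)
open Pool.Agent.PD (BTP StmtCountL)

variable {k : ℕ} {G : Type}

/-- the levels -/
private theorem dyad99 {n : ℕ} (hn : 2 ≤ n) : ∃ i : ℕ, n ≤ 2 ^ 2 ^ (i + 1) ∧ 2 ^ 2 ^ (i + 1) ≤ n ^ 2 := by
  refine ⟨Nat.log 2 (Nat.log 2 n), ?_, ?_⟩
  · have h1 : n < 2 ^ (Nat.log 2 n + 1) := Nat.lt_pow_succ_log_self (by norm_num) n
    have h2 : Nat.log 2 n < 2 ^ (Nat.log 2 (Nat.log 2 n) + 1) := Nat.lt_pow_succ_log_self (by norm_num) _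
    exact h1.le.trans (Nat.pow_le_pow_right (by norm_num) h2)
  · have h1 : 1 ≤ Nat.log 2 n := (Nat.le_log_iff_pow_le (by norm_num) (by omega)).mpr (by simpa using hn)
    have h2 : 2 ^ Nat.log 2 (Nat.log 2 n) ≤ Nat.log 2 n := Nat.pow_log_le_self 2 (by omega)
    have h3 : 2 ^ Nat.log 2 n ≤ n := Nat.pow_log_le_self 2 (by omega)
    calc 2 ^ 2 ^ (Nat.log 2 (Nat.log 2 n) + 1) = (2 ^ 2 ^ Nat.log 2 (Nat.log 2 n)) ^ 2 := by
          rw [pow_succ 2 (Nat.log 2 (Nat.log 2 n)), pow_mul]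
      _ ≤ (2 ^ Nat.log 2 n) ^ 2 := Nat.pow_le_pow_left (Nat.pow_le_pow_right (by norm_num) h2) 2
      _ ≤ n ^ 2 := Nat.pow_le_pow_left h3 2

/-- the sum over the levels -/
private theorem levels99 {η : ℝ} (hη : 0 < η) : ∃ C : ℝ, 0 < C ∧ ∀ B : ℕ, 3 ≤ B → ∀ I : Finset ℕ, (∀ i ∈ I, B ≤ 2 ^ 2 ^ (i + 1)) →
    ∑ i ∈ I, Real.log ((2 ^ 2 ^ (i + 1) : ℕ) : ℝ) ^ (-η) ≤ C * Real.log B ^ (-(η / 2)) := by
  set r : ℝ := (2 : ℝ) ^ (-(η / 2)) with hr
  have hr0 : 0 < r := by positivity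
  have hr1 : r < 1 := Real.rpow_lt_one_of_one_lt_of_neg (by norm_num) (by linarith)
  refine ⟨(1 - r)⁻¹, inv_pos.mpr (by linarith), fun B hB I hI => ?_⟩
  have hlB := log_ge_one hB
  have hlB0 : 0 < Real.log B := by linarith
  have h1 : ∀ i ∈ I, Real.log ((2 ^ 2 ^ (i + 1) : ℕ) : ℝ) ^ (-η) ≤ Real.log B ^ (-(η / 2)) * r ^ i := by
    intro i hi
    have g1 : Real.log B ≤ Real.log ((2 ^ 2 ^ (i + 1) : ℕ) : ℝ) :=
      Real.log_le_log (by exact_mod_cast (by omega : 0 < B)) (by exact_mod_cast hI i hi)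
    have g2 : (2 : ℝ) ^ i ≤ Real.log ((2 ^ 2 ^ (i + 1) : ℕ) : ℝ) := by
      rw [Nat.cast_pow, Real.log_pow, Nat.cast_ofNat]
      push_cast
      rw [pow_succ]
      have := Real.log_two_gt_d9
      have h3 : (0 : ℝ) < 2 ^ i := by positivity
      nlinarith
    have g3 : 0 < Real.log ((2 ^ 2 ^ (i + 1) : ℕ) : ℝ) := hlB0.trans_le g1
    have e : Real.log ((2 ^ 2 ^ (i + 1) : ℕ) : ℝ) ^ (-η) =
        Real.log ((2 ^ 2 ^ (i + 1) : ℕ) : ℝ) ^ (-(η / 2)) * Real.log ((2 ^ 2 ^ (i + 1) : ℕ) : ℝ) ^ (-(η / 2)) := by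
      rw [← Real.rpow_add g3]
      congr 1
      ring
    rw [e]
    have k1 : Real.log ((2 ^ 2 ^ (i + 1) : ℕ) : ℝ) ^ (-(η / 2)) ≤ Real.log B ^ (-(η / 2)) :=
      Real.rpow_le_rpow_of_nonpos hlB0 g1 (by linarith)
    have k2 : Real.log ((2 ^ 2 ^ (i + 1) : ℕ) : ℝ) ^ (-(η / 2)) ≤ r ^ i := by
      refine (Real.rpow_le_rpow_of_nonpos (by positivity) g2 (by linarith)).trans (le_of_eq ?_)
      rw [hr, ← Real.rpow_natCast (2 : ℝ) i, ← Real.rpow_natCast _ i, ← Real.rpow_mul (by norm_num), ← Real.rpow_mul (by norm_num)]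
      congr 1
      ring
    exact mul_le_mul k1 k2 (by positivity) (by positivity)
  refine (Finset.sum_le_sum h1).trans ?_
  rw [← Finset.mul_sum, mul_comm]
  refine mul_le_mul_of_nonneg_right ?_ (by positivity)
  rw [← tsum_geometric_of_lt_one hr0.le hr1]
  exact (summable_geometric_of_lt_one hr0.le hr1).sum_le_tsum I fun i _ => by positivity

open Classical in
/-- the counting theorem, all primes are admissible -/
theorem countK_L99 [CommGroup G] (D : CD k G) {b κ : ℝ} (hb : 0 < b) (hb1 : b ≤ 1) (hκ : 1 ≤ κ)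
    {Ok : Finset D.P → Prop} (hOk : ∀ m c, m ⊆ c → Ok c → Ok m) (hS : SysW D.P D.nm) (hM : MertK D κ)
    (hV : ∃ K : ℕ, ∀ p, (D.V p).card ≤ K) (hBT : BTb D b Ok) {j₀ : Fin k} (hsp : Special D j₀)
    (hBTR : ∃ (C : ℝ) (A : ℕ), 0 < C ∧ BTPc D b κ Ok j₀ C A)
    (hTBJ : ∀ J : Finset (Fin k), j₀ ∈ J → J ≠ {j₀} → TBKt D b κ J) :
    ∃ ε η C : ℝ, 0 < ε ∧ ε < 1 ∧ 0 < η ∧ 0 < C ∧ ∀ X B : ℕ, 3 ≤ X → 2 ≤ B →
      ∀ S : Finset (Finset D.P), (∀ c ∈ S, Nm D c ≤ X ∧ Ok c ∧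
        ∃ τ : D.P → D.O, BadT D c τ ∧
        (∃ p ∈ pf D c, D.cmp (τ p) ≠ j₀ ∧ B ≤ D.nm p) ∧
        ∀ p ∈ pf D c, D.cmp (τ p) ≠ j₀ → (D.nm p : ℝ) ≤ Real.exp (Real.log X ^ ε)) →
      (S.card : ℝ) ≤ C * X * Real.log X ^ (κ - 1) * (1 / Real.log B ^ η + 1 / Real.log X ^ η) := by
  have hκ0 : 0 < κ := by linarith
  obtain ⟨η, C, Y₀, A, hη, hC, hY₀, hA, hlev⟩ := levelL99 hb hb1 hκ hOk hS hM hV hBT hsp hBTR hTBJ
  obtain ⟨C₁, hC₁, hcnt⟩ := countK_le99 hS hM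
  obtain ⟨C₂, hC₂, hsm⟩ := smoothK99 hκ0 hS hM
  obtain ⟨C₄, hC₄, hlv⟩ := levels99 hη
  obtain ⟨η', hη'⟩ : ∃ η' : ℝ, η' = min (η / 2) (3 / 8) := ⟨_, rfl⟩
  have hη'0 : 0 < η' := by
    rw [hη']
    exact lt_min (by positivity) (by norm_num)
  obtain ⟨R, hR⟩ : ∃ R : ℝ, R = max (((A : ℝ) + 1) ^ 2) (4 ^ 8) := ⟨_, rfl⟩
  have hR1 : 1 ≤ R := by
    rw [hR]
    exact le_max_of_le_right (by norm_num)
  have hlY₀ := log_ge_one hY₀
  refine ⟨1 / 8, η', C₁ * Real.log Y₀ ^ η' + C₁ * R ^ η' + 8 * C₂ + C * C₄ + 1, by norm_num, by norm_num, hη'0, by positivity,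
    fun X B hX hB S hSc => ?_⟩
  set F : ℝ := C₁ * Real.log Y₀ ^ η' + C₁ * R ^ η' + 8 * C₂ + C * C₄ + 1 with hF
  have hX0 : (0 : ℝ) < X := by exact_mod_cast (by omega : 0 < X)
  have hlX := log_ge_one hX
  have hlX0 : 0 < Real.log X := by linarith
  have hlB0 : 0 < Real.log B := Real.log_pos (by exact_mod_cast (by omega : 1 < B))
  have hBp : 0 < 1 / Real.log B ^ η' := by positivity
  have hXp : 0 < 1 / Real.log X ^ η' := by positivity
  have hYp : 0 < Real.log Y₀ ^ η' := by positivity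
  have hRp : 0 < R ^ η' := by positivity
  obtain ⟨W, hW⟩ : ∃ W : ℝ, W = X * Real.log X ^ (κ - 1) := ⟨_, rfl⟩
  have hW0 : 0 < W := by
    rw [hW]
    positivity
  have htriv : (S.card : ℝ) ≤ C₁ * W := by
    rw [hW, ← mul_assoc]
    exact hcnt X (by omega) S fun c hc => (hSc c hc).1
  have hgoal : F * X * Real.log X ^ (κ - 1) * (1 / Real.log B ^ η' + 1 / Real.log X ^ η') =
      F * W * (1 / Real.log B ^ η' + 1 / Real.log X ^ η') := by
    rw [hW]
    ring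
  rw [hgoal]
  -- small `B`
  rcases Nat.lt_or_ge B Y₀ with hBY | hBY
  · have g1 : Real.log B ^ η' ≤ Real.log Y₀ ^ η' :=
      Real.rpow_le_rpow hlB0.le (Real.log_le_log (by exact_mod_cast (by omega : 0 < B)) (by exact_mod_cast hBY.le)) hη'0.le
    have g2 : 1 ≤ Real.log Y₀ ^ η' * (1 / Real.log B ^ η') := by
      rw [mul_one_div, le_div_iff₀ (by positivity), one_mul]
      exact g1
    have g3 : C₁ * Real.log Y₀ ^ η' ≤ F := by
      rw [hF]
      have : 0 < C₁ * R ^ η' := by positivity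
      have : 0 < C * C₄ := by positivity
      linarith
    calc (S.card : ℝ) ≤ C₁ * W * 1 := by rw [mul_one]; exact htriv
      _ ≤ C₁ * W * (Real.log Y₀ ^ η' * (1 / Real.log B ^ η')) := mul_le_mul_of_nonneg_left g2 (by positivity)
      _ = (C₁ * Real.log Y₀ ^ η') * W * (1 / Real.log B ^ η') := by ring
      _ ≤ F * W * (1 / Real.log B ^ η') := mul_le_mul_of_nonneg_right (mul_le_mul_of_nonneg_right g3 hW0.le) hBp.le
      _ ≤ F * W * (1 / Real.log B ^ η' + 1 / Real.log X ^ η') := mul_le_mul_of_nonneg_left (by linarith) (by positivity)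
  -- small `X`
  rcases lt_or_ge (Real.log X) R with hXR | hXR
  · have g1 : Real.log X ^ η' ≤ R ^ η' := Real.rpow_le_rpow hlX0.le hXR.le hη'0.le
    have g2 : 1 ≤ R ^ η' * (1 / Real.log X ^ η') := by
      rw [mul_one_div, le_div_iff₀ (by positivity), one_mul]
      exact g1
    have g3 : C₁ * R ^ η' ≤ F := by
      rw [hF]
      have : 0 < C₁ * Real.log Y₀ ^ η' := by positivity
      have : 0 < C * C₄ := by positivity
      linarith
    calc (S.card : ℝ) ≤ C₁ * W * 1 := by rw [mul_one]; exact htriv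
      _ ≤ C₁ * W * (R ^ η' * (1 / Real.log X ^ η')) := mul_le_mul_of_nonneg_left g2 (by positivity)
      _ = (C₁ * R ^ η') * W * (1 / Real.log X ^ η') := by ring
      _ ≤ F * W * (1 / Real.log X ^ η') := mul_le_mul_of_nonneg_right (mul_le_mul_of_nonneg_right g3 hW0.le) hXp.le
      _ ≤ F * W * (1 / Real.log B ^ η' + 1 / Real.log X ^ η') := mul_le_mul_of_nonneg_left (by linarith) (by positivity)
  -- the main case
  have hB3 : 3 ≤ B := hY₀.trans hBY
  set M := zz 2 X 1 with hM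
  set V := zz 8 X 1 with hVd
  set Z := V ^ 2 with hZ
  have hM2 : 2 ≤ M := zz_two hX
  have hV2 : 2 ≤ V := zz_two hX
  have hlM1 : Real.log M ≤ Real.log X ^ (1 / 2 : ℝ) := by
    have := log_zz_le (N := 2) (κ := 1) hX (by norm_num)
    simpa using this
  have hlM2 : 1 / 4 * Real.log X ^ (1 / 2 : ℝ) ≤ Real.log M := by
    have := le_log_zz (N := 2) (κ := 1) hX (by norm_num)
    simpa using this
  have hlV : Real.log V ≤ Real.log X ^ (1 / 8 : ℝ) := by
    have := log_zz_le (N := 8) (κ := 1) hX (by norm_num)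
    simpa using this
  have hlZ : Real.log Z ≤ 2 * Real.log X ^ (1 / 8 : ℝ) := by
    rw [hZ, Nat.cast_pow, Real.log_pow, Nat.cast_ofNat]
    linarith
  have hp12 : 0 < Real.log X ^ (1 / 2 : ℝ) := by positivity
  have hp18 : 0 < Real.log X ^ (1 / 8 : ℝ) := by positivity
  have hsq : Real.log X ^ (1 / 2 : ℝ) * Real.log X ^ (1 / 2 : ℝ) = Real.log X := by
    rw [← Real.rpow_add hlX0]
    norm_num
  have hA1 : (A : ℝ) + 1 ≤ Real.log X ^ (1 / 2 : ℝ) := by
    have g1 : ((A : ℝ) + 1) ^ 2 ≤ Real.log X := by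
      refine le_trans ?_ hXR
      rw [hR]
      exact le_max_left _ _
    have g2 : (((A : ℝ) + 1) ^ 2) ^ (1 / 2 : ℝ) ≤ Real.log X ^ (1 / 2 : ℝ) := Real.rpow_le_rpow (by positivity) g1 (by norm_num)
    rwa [← Real.sqrt_eq_rpow, Real.sqrt_sq (by positivity)] at g2
  have h48 : (4 : ℝ) ≤ Real.log X ^ (1 / 8 : ℝ) := by
    have g1 : (4 : ℝ) ^ 8 ≤ Real.log X := by
      refine le_trans ?_ hXR
      rw [hR]
      exact le_max_right _ _
    have g2 : ((4 : ℝ) ^ 8) ^ (1 / 8 : ℝ) ≤ Real.log X ^ (1 / 8 : ℝ) := Real.rpow_le_rpow (by positivity) g1 (by norm_num)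
    have g3 : ((4 : ℝ) ^ 8) ^ (1 / 8 : ℝ) = 4 := by
      rw [← Real.rpow_natCast, ← Real.rpow_mul (by norm_num)]
      norm_num
    rwa [g3] at g2
  have hZ4 : Z ^ 4 ≤ X := by
    obtain ⟨u, hu⟩ : ∃ u : ℝ, u = Real.log X ^ (1 / 8 : ℝ) := ⟨_, rfl⟩
    have g0 : u ^ 8 = Real.log X := by
      rw [hu, ← Real.rpow_natCast, ← Real.rpow_mul hlX0.le]
      norm_num
    rw [← hu] at h48 hlZ
    have g1 : 8 * u ≤ u ^ 8 := by
      have a1 : (4 : ℝ) ^ 7 ≤ u ^ 7 := pow_le_pow_left₀ (by norm_num) h48 7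
      have a2 : u ^ 8 = u ^ 7 * u := pow_succ u 7
      rw [a2]
      have a3 : (8 : ℝ) ≤ u ^ 7 := le_trans (by norm_num) a1
      exact mul_le_mul_of_nonneg_right a3 (by linarith)
    have hZ0 : (0 : ℝ) < Z := by
      have : 0 < V ^ 2 := by positivity
      rw [hZ]
      exact_mod_cast this
    have g2 : Real.log ((Z : ℝ) ^ 4) ≤ Real.log X := by
      rw [Real.log_pow]
      push_cast
      linarith
    have g3 := (Real.log_le_log_iff (by positivity) hX0).mp g2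
    exact_mod_cast g3
  have hMX : M ^ (A + 1) ≤ X := by
    have hM0 : (0 : ℝ) < M := by exact_mod_cast (by omega : 0 < M)
    have g1 : Real.log ((M : ℝ) ^ (A + 1)) ≤ Real.log X := by
      rw [Real.log_pow]
      push_cast
      calc ((A : ℝ) + 1) * Real.log M ≤ Real.log X ^ (1 / 2 : ℝ) * Real.log X ^ (1 / 2 : ℝ) :=
            mul_le_mul hA1 hlM1 (Real.log_natCast_nonneg M) hp12.le
        _ = _ := hsq
    have g2 := (Real.log_le_log_iff (by positivity) hX0).mp g1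
    exact_mod_cast g2
  have hYX : ∀ Y : ℕ, 2 ≤ Y → Y ≤ Z → Real.log Y ≤ Real.log (X / M : ℕ) ^ (1 / 2 : ℝ) := by
    intro Y hY hYZ
    have g1 : Real.log Y ≤ 2 * Real.log X ^ (1 / 8 : ℝ) :=
      (Real.log_le_log (by exact_mod_cast (by omega : 0 < Y)) (by exact_mod_cast hYZ)).trans hlZ
    have g2 : M ≤ X / M := by
      rw [Nat.le_div_iff_mul_le (by omega)]
      calc M * M = M ^ 2 := (sq M).symm
        _ ≤ M ^ (A + 1) := Nat.pow_le_pow_right (by omega) (by omega)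
        _ ≤ X := hMX
    have g3 : Real.log M ≤ Real.log (X / M : ℕ) :=
      Real.log_le_log (by exact_mod_cast (by omega : 0 < M)) (by exact_mod_cast g2)
    have g4 : (1 / 4 * Real.log X ^ (1 / 2 : ℝ)) ^ (1 / 2 : ℝ) ≤ Real.log (X / M : ℕ) ^ (1 / 2 : ℝ) :=
      Real.rpow_le_rpow (by positivity) (hlM2.trans g3) (by norm_num)
    refine g1.trans (le_trans ?_ g4)
    rw [Real.mul_rpow (by norm_num) hp12.le, ← Real.rpow_mul hlX0.le]
    have e1 : (1 / 4 : ℝ) ^ (1 / 2 : ℝ) = 1 / 2 := by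
      rw [← Real.sqrt_eq_rpow, show (1 / 4 : ℝ) = (1 / 2) ^ 2 by norm_num, Real.sqrt_sq (by norm_num)]
    have e2 : Real.log X ^ ((1 / 2 : ℝ) * (1 / 2)) = Real.log X ^ (1 / 8 : ℝ) * Real.log X ^ (1 / 8 : ℝ) := by
      rw [← Real.rpow_add hlX0]
      norm_num
    rw [e1, e2]
    nlinarith
  -- the sets with a large smooth part
  set SM := S.filter fun c => ¬ Nm D (c.filter fun p => D.nm p ≤ Z) ≤ M with hSM
  set I := (Finset.range (Z + 1)).filter fun i => B ≤ 2 ^ 2 ^ (i + 1) ∧ 2 ^ 2 ^ (i + 1) ≤ Z with hI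
  let SI : ℕ → Finset (Finset D.P) := fun i => S.filter fun c => Nm D (c.filter fun p => D.nm p ≤ 2 ^ 2 ^ (i + 1)) ≤ M ∧
    ∃ τ, BadT D c τ ∧ (∀ p ∈ pf D c, D.cmp (τ p) ≠ j₀ → D.nm p ≤ 2 ^ 2 ^ (i + 1)) ∧
      ∃ p ∈ pf D c, D.cmp (τ p) ≠ j₀ ∧ 2 ^ 2 ^ (i + 1) ≤ D.nm p ^ 2
  have hcov : S ⊆ SM ∪ I.biUnion SI := by
    intro c hc
    by_cases h1 : Nm D (c.filter fun p => D.nm p ≤ Z) ≤ M
    swap
    · exact Finset.mem_union_left _ (Finset.mem_filter.mpr ⟨hc, h1⟩)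
    refine Finset.mem_union_right _ ?_
    obtain ⟨h2, _, τ, h3, ⟨p₁, h4, h5, h6⟩, h7⟩ := hSc c hc
    obtain ⟨p, hp, hmax⟩ := Finset.exists_max_image ((pf D c).filter fun p => D.cmp (τ p) ≠ j₀) D.nm
      ⟨p₁, Finset.mem_filter.mpr ⟨h4, h5⟩⟩
    obtain ⟨g1, g2⟩ := Finset.mem_filter.mp hp
    obtain ⟨i, k1, k2⟩ := dyad99 (hS.two p)
    have g3 : B ≤ D.nm p := h6.trans (hmax p₁ (Finset.mem_filter.mpr ⟨h4, h5⟩))
    have g4 : D.nm p ≤ V := by
      have g5 := h7 p g1 g2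
      rw [hVd]
      unfold zz
      refine Nat.le_floor (g5.trans (le_of_eq ?_))
      norm_num
    have g6 : 2 ^ 2 ^ (i + 1) ≤ Z := k2.trans (by rw [hZ]; exact Nat.pow_le_pow_left g4 2)
    refine Finset.mem_biUnion.mpr ⟨i, Finset.mem_filter.mpr ⟨?_, g3.trans k1, g6⟩, Finset.mem_filter.mpr ⟨hc, ?_, τ, h3, ?_, p, g1, g2, k2⟩⟩
    · rw [Finset.mem_range]
      have a1 : i < 2 ^ i := Nat.lt_two_pow_self
      have a2 : 2 ^ i ≤ 2 ^ (i + 1) := Nat.pow_le_pow_right (by norm_num) (by omega)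
      have a3 : 2 ^ (i + 1) < 2 ^ 2 ^ (i + 1) := Nat.lt_two_pow_self
      omega
    · refine le_trans (Nat.le_of_dvd (Nm_pos hS _) ?_) h1
      unfold Nm
      refine Finset.prod_dvd_prod_of_subset _ _ _ fun r hr => ?_
      obtain ⟨a1, a2⟩ := Finset.mem_filter.mp hr
      exact Finset.mem_filter.mpr ⟨a1, a2.trans g6⟩
    · intro r hr hrj
      exact (hmax r (Finset.mem_filter.mpr ⟨hr, hrj⟩)).trans k1
  have hcard : (S.card : ℝ) ≤ SM.card + ∑ i ∈ I, ((SI i).card : ℝ) := by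
    have g1 := Finset.card_le_card hcov
    have g2 := Finset.card_union_le SM (I.biUnion SI)
    have g4 := Finset.card_biUnion_le (s := I) (t := SI)
    have g6 : S.card ≤ SM.card + ∑ i ∈ I, (SI i).card := by omega
    exact_mod_cast g6
  have b1 : (SM.card : ℝ) ≤ 8 * C₂ * W * Real.log X ^ (-(3 / 8 : ℝ)) := by
    have hlM0 : 0 < Real.log M := Real.log_pos (by exact_mod_cast (by omega : 1 < M))
    have g1 := hsm Z X (by rw [hZ]; nlinarith) hZ4 (Real.log M) hlM0 SM (by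
      intro c hc
      obtain ⟨a1, a2⟩ := Finset.mem_filter.mp hc
      refine ⟨(hSc c a1).1, ?_⟩
      push Not at a2
      have a3 : (M : ℝ) ≤ ∏ p ∈ c.filter (fun p => D.nm p ≤ Z), (D.nm p : ℝ) := by
        have : (M : ℝ) ≤ (Nm D (c.filter fun p => D.nm p ≤ Z) : ℕ) := by exact_mod_cast a2.le
        unfold Nm at this
        push_cast at this
        exact this
      have a4 := Real.log_le_log (by exact_mod_cast (by omega : 0 < M)) a3
      rwa [Real.log_prod] at a4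
      intro p _
      have := hS.two p
      exact_mod_cast (by omega : D.nm p ≠ 0))
    rw [mul_assoc C₂, ← hW] at g1
    refine g1.trans ?_
    have g2 : Real.log Z / Real.log M ≤ 8 * Real.log X ^ (-(3 / 8 : ℝ)) := by
      rw [div_le_iff₀ hlM0]
      have e1 : Real.log X ^ (-(3 / 8 : ℝ)) * Real.log X ^ (1 / 2 : ℝ) = Real.log X ^ (1 / 8 : ℝ) := by
        rw [← Real.rpow_add hlX0]
        norm_num
      have hp38 : 0 < Real.log X ^ (-(3 / 8 : ℝ)) := by positivity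
      calc Real.log Z ≤ 2 * Real.log X ^ (1 / 8 : ℝ) := hlZ
        _ = 8 * Real.log X ^ (-(3 / 8 : ℝ)) * (1 / 4 * Real.log X ^ (1 / 2 : ℝ)) := by
            rw [← e1]
            ring
        _ ≤ 8 * Real.log X ^ (-(3 / 8 : ℝ)) * Real.log M := mul_le_mul_of_nonneg_left hlM2 (by positivity)
    calc C₂ * W * (Real.log Z / Real.log M) ≤ C₂ * W * (8 * Real.log X ^ (-(3 / 8 : ℝ))) :=
          mul_le_mul_of_nonneg_left g2 (by positivity)
      _ = _ := by ring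
  have b2 : ∑ i ∈ I, ((SI i).card : ℝ) ≤ C * W * (C₄ * Real.log B ^ (-(η / 2))) := by
    have g1 : ∀ i ∈ I, ((SI i).card : ℝ) ≤ C * W * Real.log ((2 ^ 2 ^ (i + 1) : ℕ) : ℝ) ^ (-η) := by
      intro i hi
      obtain ⟨_, a1, a2⟩ := Finset.mem_filter.mp hi
      rw [hW]
      refine hlev X (2 ^ 2 ^ (i + 1)) M (hBY.trans a1) (hYX _ (by omega) a2) hMX (SI i) fun c hc => ?_
      obtain ⟨k1, k2, k3⟩ := Finset.mem_filter.mp hc
      exact ⟨(hSc c k1).1, (hSc c k1).2.1, k2, k3⟩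
    refine (Finset.sum_le_sum g1).trans ?_
    rw [← Finset.mul_sum]
    exact mul_le_mul_of_nonneg_left (hlv B hB3 I fun i hi => (Finset.mem_filter.mp hi).2.1) (by positivity)
  have r1 : Real.log X ^ (-(3 / 8 : ℝ)) ≤ 1 / Real.log X ^ η' := by
    rw [one_div, ← Real.rpow_neg hlX0.le]
    exact Real.rpow_le_rpow_of_exponent_le hlX (neg_le_neg (by rw [hη']; exact min_le_right _ _))
  have r2 : Real.log B ^ (-(η / 2)) ≤ 1 / Real.log B ^ η' := by
    rw [one_div, ← Real.rpow_neg hlB0.le]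
    exact Real.rpow_le_rpow_of_exponent_le (log_ge_one hB3) (neg_le_neg (by rw [hη']; exact min_le_left _ _))
  have f1 : 8 * C₂ ≤ F := by
    rw [hF]
    have : 0 < C₁ * R ^ η' := by positivity
    have : 0 < C₁ * Real.log Y₀ ^ η' := by positivity
    have : 0 < C * C₄ := by positivity
    linarith
  have f2 : C * C₄ ≤ F := by
    rw [hF]
    have : 0 < C₁ * R ^ η' := by positivity
    have : 0 < C₁ * Real.log Y₀ ^ η' := by positivity
    linarith
  calc (S.card : ℝ) ≤ 8 * C₂ * W * Real.log X ^ (-(3 / 8 : ℝ)) + C * W * (C₄ * Real.log B ^ (-(η / 2))) := by linarith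
    _ ≤ 8 * C₂ * W * (1 / Real.log X ^ η') + C * W * (C₄ * (1 / Real.log B ^ η')) := by
        refine add_le_add (mul_le_mul_of_nonneg_left r1 (by positivity)) ?_
        exact mul_le_mul_of_nonneg_left (mul_le_mul_of_nonneg_left r2 hC₄.le) (by positivity)
    _ = 8 * C₂ * (W * (1 / Real.log X ^ η')) + C * C₄ * (W * (1 / Real.log B ^ η')) := by ring
    _ ≤ F * (W * (1 / Real.log X ^ η')) + F * (W * (1 / Real.log B ^ η')) :=
        add_le_add (mul_le_mul_of_nonneg_right f1 (by positivity)) (mul_le_mul_of_nonneg_right f2 (by positivity))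
    _ = _ := by ring

section res

variable {D : CD k G} {R : Set D.P}

theorem BadT_res99 [CommGroup G] {S : Finset (res D R).P} {τ : D.P → D.O} (h : BadT D (up S) τ) :
    BadT (res D R) S (fun p => τ p.1) := by
  classical
  intro p hp
  have hp' : p.1 ∈ pf D (up S) := by
    rw [pf_up]
    exact val_mem_up.mpr hp
  obtain ⟨h1, h2⟩ := h p.1 hp'
  refine ⟨h1, fun j i hi => ?_⟩
  refine Eq.trans ?_ (h2 j i hi)
  refine Finset.prod_bij (fun q _ => q.1) ?_ ?_ ?_ ?_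
  · intro q hq
    obtain ⟨g1, g2, g3⟩ := Finset.mem_filter.mp hq
    refine Finset.mem_filter.mpr ⟨?_, fun e => g2 (Subtype.ext e), g3⟩
    rw [pf_up]
    exact val_mem_up.mpr g1
  · intro a _ b _ e
    exact Subtype.ext e
  · intro q hq
    obtain ⟨g1, g2, g3⟩ := Finset.mem_filter.mp hq
    rw [pf_up] at g1
    obtain ⟨g4, g5⟩ := mem_up.mp g1
    exact ⟨⟨q, g4⟩, Finset.mem_filter.mpr ⟨g5, fun e => g2 (congrArg Subtype.val e), g3⟩, rfl⟩
  · intro q _
    rfl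

theorem Special_res99 {j₀ : Fin k} (h : Special D j₀) : Special (res D R) j₀ where
  chi q o ho o' ho' e e' p i := h.chi q.1 o ho o' ho' e e' p.1 i
  emp q o ho e := h.emp q.1 o ho e

theorem BTP_res99 (o₀ : D.O) [CommGroup G] {b κ : ℝ} {Ok : Finset D.P → Prop} {j₀ : Fin k}
    (h : BTP D b κ R Ok j₀) :
    ∃ (C : ℝ) (A : ℕ), 0 < C ∧ BTPc (res D R) b κ (fun m => Ok (up m)) j₀ C A := by
  classical
  obtain ⟨C, A, hC, h⟩ := h
  refine ⟨C, A, hC, fun m hm τ hτ t Y x hY hYx hmx o E hE => ?_⟩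
  have hinj : Function.Injective (up : Finset (res D R).P → Finset D.P) := Finset.map_injective _
  have h1 := h (up m) (by
    intro p hp g
    obtain ⟨g1, g2⟩ := mem_up.mp hp
    exact hm _ g2 (mem_Ex_res.mpr g))
    (fun p => if h : p ∈ R ∨ p ∈ D.Ex then τ ⟨p, h⟩ else o₀) (by
      intro p hp
      obtain ⟨g1, g2⟩ := mem_up.mp hp
      rw [dif_pos g1]
      exact hτ _ g2)
    (fun p i => if h : p ∈ R ∨ p ∈ D.Ex then t ⟨p, h⟩ i else 1) Y x hY hYx (by
      rw [Nm_up]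
      exact hmx)
    (fun p => if h : p ∈ R ∨ p ∈ D.Ex then o ⟨p, h⟩ else o₀) (E.image up) (by
      intro e' he'
      obtain ⟨e, he, rfl⟩ := Finset.mem_image.mp he'
      obtain ⟨k1, ⟨m', hm1, hm2, hm3⟩, k3, k4⟩ := hE e he
      refine ⟨?_, ⟨up m', hm1, up_mono hm2, up_mono hm3⟩, ?_, ?_⟩
      · rw [Nm_up]
        exact k1
      · intro q hq
        obtain ⟨g1, g2⟩ := mem_up.mp hq
        obtain ⟨l1, l2, l3, l4, l5⟩ := k3 _ g2
        have l6 : q ∉ D.Ex := fun g => l1 (mem_Ex_res.mpr g)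
        refine ⟨g1.resolve_right l6, l6, fun g => l2 ?_, l3, ?_, ?_⟩
        · obtain ⟨_, g4⟩ := mem_up.mp g
          exact g4
        · rw [dif_pos g1]
          exact l4
        · rw [dif_pos g1]
          exact l5
      · intro p hp i hi
        obtain ⟨g3, g4⟩ := mem_up.mp hp
        rw [dif_pos g3] at hi
        have g5 := k4 _ g4 i hi
        rw [dif_pos g3, ← g5]
        unfold up
        rw [Finset.prod_map]
        refine Finset.prod_congr rfl fun q _ => ?_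
        have e2 : (if h : q.1 ∈ R ∨ q.1 ∈ D.Ex then o ⟨q.1, h⟩ else o₀) = o q := dif_pos q.2
        exact congrArg (fun o => D.χ p i q.1 o) e2)
  rw [Finset.card_image_of_injective E hinj] at h1
  refine h1.trans (le_of_eq ?_)
  congr 2
  unfold up
  rw [Finset.prod_map]
  refine Finset.prod_congr rfl fun p _ => ?_
  have e : (if h : p.1 ∈ R ∨ p.1 ∈ D.Ex then τ ⟨p.1, h⟩ else o₀) = τ p := dif_pos p.2
  exact congrArg (fun o => b ^ (D.I p.1 o j₀).card) e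

end res

open Classical in
/-- BLOCK P2 -/
theorem countL99 : StmtCountL := by
  intro k G _ D b hb hb1 Ok hOk R κ hκ hS hV hBT j₀ hsp hBTR hTBJ
  -- the trivial case
  by_cases hO : Nonempty D.O
  swap
  · refine ⟨1 / 2, 1, 1, by norm_num, by norm_num, one_pos, one_pos, fun X B hX hB S hSc => ?_⟩
    have hsub : S ⊆ ∅ := by
      intro c hc
      obtain ⟨_, _, _, τ, _, ⟨p, _⟩, _⟩ := hSc c hc
      exact absurd ⟨τ p⟩ hO
    have h1 : S.card = 0 := by
      rw [Finset.subset_empty.mp hsub]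
      rfl
    rw [h1, Nat.cast_zero]
    have := log_ge_one hX
    have hB0 : 0 ≤ Real.log (B : ℝ) := Real.log_natCast_nonneg B
    positivity
  obtain ⟨o₀⟩ := hO
  obtain ⟨h1, h2⟩ := sys_res hS
  obtain ⟨K, hK⟩ := hV
  obtain ⟨ε, η, C, hε, hε1, hη, hC, h⟩ := countK_L99 (res D R) hb hb1 hκ
    (Ok := fun m => Ok (up m)) (fun m c hmc hc => hOk _ _ (up_mono hmc) hc) h1 h2 ⟨K, fun p => hK p.1⟩
    (BT_res o₀ hBT) (Special_res99 hsp) (BTP_res99 o₀ hBTR) (fun J hJ hJ' => TBt_res (hTBJ J hJ hJ'))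
  refine ⟨ε, η, C, hε, hε1, hη, hC, fun X B hX hB S hSc => ?_⟩
  set f : Finset D.P → Finset (res D R).P := fun c => c.subtype (fun p => p ∈ R ∨ p ∈ D.Ex) with hf
  have hup : ∀ c ∈ S, up (f c) = c := by
    intro c hc
    ext p
    rw [mem_up]
    constructor
    · rintro ⟨g1, g2⟩
      exact Finset.mem_subtype.mp g2
    · intro hp
      have g1 : p ∈ R ∨ p ∈ D.Ex := by
        by_cases g : p ∈ D.Ex
        · exact Or.inr g
        · exact Or.inl ((hSc c hc).2.1 p (mem_pf.mpr ⟨hp, g⟩))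
      exact ⟨g1, Finset.mem_subtype.mpr hp⟩
  have hcard : S.card = (S.image f).card := by
    rw [Finset.card_image_of_injOn]
    intro c hc c' hc' e
    rw [← hup c hc, ← hup c' hc']
    exact congrArg up e
  rw [hcard]
  refine h X B hX hB (S.image f) fun c' hc' => ?_
  obtain ⟨c, hc, rfl⟩ := Finset.mem_image.mp hc'
  obtain ⟨g1, _, g4, τ, g5, ⟨p, g6, g7, g8⟩, g9⟩ := hSc c hc
  rw [← hup c hc] at g1 g4 g5 g6 g9
  rw [Nm_up] at g1
  rw [pf_up] at g6 g9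
  obtain ⟨g10, g11⟩ := mem_up.mp g6
  refine ⟨g1, g4, fun p => τ p.1, BadT_res99 g5, ⟨⟨p, g10⟩, g11, g7, g8⟩, fun q hq hqj => ?_⟩
  exact g9 q.1 (val_mem_up.mpr hq) hqj

end Pool.Agent.PD99
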