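import Pool.Agent.Helper99.MLT.CountLT
import Pool.Agent.Helper97.PD.Defs

/-!
# Project PD (MP_e66f84_ag), block P2: configurations for the counting theorem with small primes
outside `j₀`
-/

set_option autoImplicit false

namespace Pool.Agent.PD99

open Filter Topology
open Pool.Agent.HG (BadT Special)
open Pool.Agent.Helper99.HG (CD pf Nm pr Js sc sc_lt sc_le sc_pos mem_pf)
open Pool.Agent.Helper99.ML (SysW mem_pr nm_le_Nm Nm_pos BTc)
open Pool.Agent.TW37 (Cfg NmA TT IsSp Adm lowA lowQ pre)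
open Pool.Agent.MLT99 (Admo)

variable {k : ℕ} {G : Type}

open Classical in
/-- a fixed option with the component `j₀` -/
noncomputable def oo (D : CD k G) (j₀ : Fin k) (o₀ : D.O) (q : D.P) : D.O :=
  if h : ∃ o ∈ D.V q, D.cmp o = j₀ then h.choose else o₀

theorem oo_spec {D : CD k G} {j₀ : Fin k} {o₀ : D.O} {q : D.P} (h : ∃ o ∈ D.V q, D.cmp o = j₀) :
    oo D j₀ o₀ q ∈ D.V q ∧ D.cmp (oo D j₀ o₀ q) = j₀ := by
  unfold oo
  rw [dif_pos h]
  exact h.choose_spec

open Classical in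
/-- the rough parts which belong to a configuration -/
def RoughOf [CommGroup G] (D : CD k G) (Ok : Finset D.P → Prop) (j₀ : Fin k) (o₀ : D.O) (Y X : ℕ) (ω : Cfg D)
    (e : Finset D.P) : Prop :=
  Nm D ω.1 * NmA D ω.2.1 * (∏ j, NmA D (ω.2.2 j)) * Nm D e ≤ X ∧
    (∃ m' : Finset D.P, Ok m' ∧ ω.2.1.image Prod.fst ⊆ m' ∧ e ⊆ m') ∧
    (∀ q ∈ e, q ∉ D.Ex ∧ q ∉ ω.2.1.image Prod.fst ∧ Y < D.nm q ∧ oo D j₀ o₀ q ∈ D.V q ∧ D.cmp (oo D j₀ o₀ q) = j₀) ∧
    ∀ a ∈ ω.2.1, ∀ i ∈ D.I a.1 a.2 j₀, ∏ q ∈ e, D.χ a.1 i q (oo D j₀ o₀ q) =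
      D.g a.1 a.2 i * (∏ b ∈ ω.2.1.filter (fun b => b.1 ≠ a.1 ∧ D.cmp b.2 = j₀), D.χ a.1 i b.1 b.2)⁻¹

open Classical in
/-- the set of primes of a configuration -/
noncomputable def supp (D : CD k G) (ω : Cfg D) : Finset D.P :=
  ω.1 ∪ ω.2.1.image Prod.fst ∪ Finset.univ.biUnion fun j => (ω.2.2 j).image Prod.fst

open Classical in
theorem cfgL [CommGroup G] {D : CD k G} (hS : SysW D.P D.nm) {Ok : Finset D.P → Prop} {j₀ : Fin k} (hsp : Special D j₀)
    {N A X Y M : ℕ}
    {c : Finset D.P} (hN : 0 < N) {z : ℕ → ℕ} (hcX : Nm D c ≤ X) (hcOk : Ok c) {τ : D.P → D.O} (hτ : BadT D c τ)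
    (hEx : ∀ p ∈ D.Ex, D.nm p ≤ Y) (hlow : ∀ p ∈ pf D c, D.cmp (τ p) ≠ j₀ → D.nm p ≤ Y)
    (htop : ∃ p ∈ pf D c, D.cmp (τ p) ≠ j₀ ∧ z (N - 1) < D.nm p)
    (hsm : ∀ κ, 1 ≤ κ → κ + 1 ≤ N - 1 → (∏ p ∈ (pf D c).filter (fun p => D.nm p ≤ z κ), D.nm p) ^ A ≤ z (κ + 1))
    (hM : Nm D (c.filter fun p => D.nm p ≤ Y) ≤ M) (o₀ : D.O) :
    ∃ K : Fin k → ℕ, (∀ j, j ≠ j₀ → K j ≤ N) ∧ K j₀ = N + 2 ∧ (∃ j₁, j₁ ≠ j₀ ∧ K j₁ = N) ∧
      ∃ ω : Cfg D, Admo D Ok z N A Y K ω ∧ ω.2.2 j₀ = ∅ ∧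
        Nm D ω.1 * NmA D ω.2.1 * (∏ j, NmA D (ω.2.2 j)) ≤ M ∧
        ∃ e : Finset D.P, RoughOf D Ok j₀ o₀ Y X ω e ∧ supp D ω ∪ e = c := by
  set P := pf D c with hP
  set K : Fin k → ℕ := fun j => if j = j₀ then N + 2 else
    (P.filter fun p => D.cmp (τ p) = j).sup fun p => sc z N (D.nm p) + 1 with hKdef
  have hK0 : K j₀ = N + 2 := by simp [hKdef]
  have hKn : ∀ j, j ≠ j₀ → K j = (P.filter fun p => D.cmp (τ p) = j).sup fun p => sc z N (D.nm p) + 1 := by
    intro j hj
    simp [hKdef, hj]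
  have hKle : ∀ p ∈ P, sc z N (D.nm p) < K (D.cmp (τ p)) := by
    intro p hp
    by_cases hj : D.cmp (τ p) = j₀
    · rw [hj, hK0]
      have := sc_lt z hN (D.nm p)
      omega
    · rw [hKn _ hj]
      exact Finset.le_sup (f := fun p => sc z N (D.nm p) + 1) (Finset.mem_filter.mpr ⟨hp, rfl⟩)
  have hKN : ∀ j, j ≠ j₀ → K j ≤ N := by
    intro j hj
    rw [hKn j hj]
    exact Finset.sup_le fun p _ => sc_lt z hN (D.nm p)
  have hq : ∀ j, ∃ q : Finset D.P, if j = j₀ ∨ K j = 0 then q = ∅ else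
      ∃ Q, q = {Q} ∧ Q ∈ P ∧ D.cmp (τ Q) = j ∧ sc z N (D.nm Q) + 1 = K j := by
    intro j
    by_cases h : j = j₀ ∨ K j = 0
    · exact ⟨∅, by rw [if_pos h]⟩
    · have h' := h
      push Not at h'
      have hne : (P.filter fun p => D.cmp (τ p) = j).Nonempty := by
        rw [Finset.nonempty_iff_ne_empty]
        intro he
        refine h'.2 ?_
        rw [hKn j h'.1, he, Finset.sup_empty]
        rfl
      obtain ⟨q, hq1, hq2⟩ := Finset.exists_mem_eq_sup _ hne fun p => sc z N (D.nm p) + 1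
      refine ⟨{q}, ?_⟩
      rw [if_neg h]
      refine ⟨q, rfl, (Finset.mem_filter.mp hq1).1, (Finset.mem_filter.mp hq1).2, ?_⟩
      rw [hKn j h'.1]
      exact hq2.symm
  choose q hq using hq
  have hq0 : ∀ j, (j = j₀ ∨ K j = 0) → q j = ∅ := fun j h => by
    have := hq j
    rwa [if_pos h] at this
  have hq1 : ∀ j, ¬ (j = j₀ ∨ K j = 0) → ∃ Q, q j = {Q} ∧ Q ∈ P ∧ D.cmp (τ Q) = j ∧ sc z N (D.nm Q) + 1 = K j := fun j h => by
    have := hq j
    rwa [if_neg h] at this
  have hqm : ∀ j p, p ∈ q j → j ≠ j₀ ∧ K j ≠ 0 ∧ p ∈ P ∧ D.cmp (τ p) = j ∧ sc z N (D.nm p) + 1 = K j ∧ q j = {p} := by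
    intro j p hp
    have h : ¬ (j = j₀ ∨ K j = 0) := by
      intro h
      rw [hq0 j h] at hp
      simp at hp
    obtain ⟨Q, h1, h2, h3, h4⟩ := hq1 j h
    rw [h1, Finset.mem_singleton] at hp
    subst hp
    push Not at h
    exact ⟨h.1, h.2, h2, h3, h4, h1⟩
  set T := Finset.univ.biUnion q with hT
  set L := c.filter (fun p => D.nm p ≤ Y) with hL
  set e := c.filter (fun p => ¬ D.nm p ≤ Y) with he
  have hTP : T ⊆ P := by
    intro p hp
    obtain ⟨j, _, hj⟩ := Finset.mem_biUnion.mp hp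
    exact (hqm j p hj).2.2.1
  have hTL : T ⊆ L := by
    intro p hp
    obtain ⟨j, _, hj⟩ := Finset.mem_biUnion.mp hp
    have h1 := hqm j p hj
    refine Finset.mem_filter.mpr ⟨(mem_pf.mp (hTP hp)).1, hlow p h1.2.2.1 ?_⟩
    rw [h1.2.2.2.1]
    exact h1.1
  have hprodq : ∏ j, Nm D (q j) = Nm D T := by
    unfold Nm
    rw [hT, Finset.prod_biUnion]
    intro i _ j _ hij
    rw [Function.onFun, Finset.disjoint_left]
    intro p h1 h2
    exact hij ((hqm i p h1).2.2.2.1.symm.trans (hqm j p h2).2.2.2.1)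
  set d := L \ T with hd
  have hdL : Nm D d * ∏ j, Nm D (q j) = Nm D L := by
    rw [hprodq, hd]
    unfold Nm
    exact Finset.prod_sdiff hTL
  have hLe : Nm D L * Nm D e = Nm D c := by
    unfold Nm
    rw [hL, he]
    exact Finset.prod_filter_mul_prod_filter_not c (fun p => D.nm p ≤ Y) D.nm
  have hpfd : ∀ p, p ∈ pf D d ↔ p ∈ P ∧ D.nm p ≤ Y ∧ p ∉ T := by
    intro p
    rw [mem_pf, hd, Finset.mem_sdiff, hL, Finset.mem_filter, hP, mem_pf]
    tauto
  have hdP : ∀ p ∈ pf D d, p ∈ P := fun p hp => ((hpfd p).mp hp).1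
  have heP : ∀ p ∈ e, p ∈ P ∧ Y < D.nm p ∧ D.cmp (τ p) = j₀ := by
    intro p hp
    obtain ⟨h1, h2⟩ := Finset.mem_filter.mp hp
    have h3 : p ∈ P := mem_pf.mpr ⟨h1, fun h => h2 (hEx p h)⟩
    refine ⟨h3, by omega, ?_⟩
    by_contra h4
    exact h2 (hlow p h3 h4)
  -- the configuration
  let at' : D.P → D.P × D.O := fun p => (p, τ p)
  have hat : Function.Injective at' := fun a b h => (Prod.ext_iff.mp h).1
  obtain ⟨dE, hdE⟩ : ∃ dE : Finset D.P, dE = d.filter (fun p => p ∈ D.Ex) := ⟨_, rfl⟩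
  let ω : Cfg D := (dE, (pf D d).image at', fun j => (q j).image at')
  have hω1 : ω.1 = dE := rfl
  have hω2 : ω.2.1 = (pf D d).image at' := rfl
  have hω3 : ∀ j, ω.2.2 j = (q j).image at' := fun j => rfl
  have hNA : ∀ s : Finset D.P, NmA D (s.image at') = Nm D s := by
    intro s
    unfold NmA Nm
    rw [Finset.prod_image (fun a _ b _ h => hat h)]
  have hfil : ∀ (s : Finset D.P) (R : D.P × D.O → Prop) [DecidablePred R],
      (s.image at').filter R = (s.filter (fun p => R (at' p))).image at' :=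
    fun s R _ => Finset.filter_image
  have hprodim : ∀ (s : Finset D.P) (F : D.P × D.O → G), ∏ b ∈ s.image at', F b = ∏ p ∈ s, F (at' p) :=
    fun s F => Finset.prod_image (fun a _ b _ h => hat h)
  have hpfin : pf D d ∪ dE = d := by
    rw [hdE]
    unfold pf
    rw [Finset.union_comm]
    exact Finset.filter_union_filter_not_eq _ d
  have hNd : Nm D ω.1 * NmA D ω.2.1 = Nm D d := by
    rw [hω1, hω2, hNA, hdE]
    unfold Nm pf
    exact Finset.prod_filter_mul_prod_filter_not d (fun p => p ∈ D.Ex) D.nm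
  have hNq : ∏ j, NmA D (ω.2.2 j) = ∏ j, Nm D (q j) := Finset.prod_congr rfl fun j _ => by rw [hω3, hNA]
  have hdc : d ⊆ c := Finset.sdiff_subset.trans (Finset.filter_subset _ _)
  have hTc : T ⊆ c := hTL.trans (Finset.filter_subset _ _)
  refine ⟨K, hKN, hK0, ?_, ω, ⟨?_, c, hcOk, ?_, ?_⟩, ?_, ?_, e, ⟨?_, ⟨c, hcOk, ?_, ?_⟩, ?_, ?_⟩, ?_⟩
  · obtain ⟨p, hp, hpj, hpz⟩ := htop
    refine ⟨D.cmp (τ p), hpj, le_antisymm (hKN _ hpj) ?_⟩
    have h1 : N - 1 ≤ sc z N (D.nm p) := Nat.le_findGreatest le_rfl hpz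
    have h2 := hKle p hp
    omega
  · refine ⟨?_, ?_, ?_, ?_, ?_, ?_, ?_⟩
    · intro p hp
      rw [hω1, hdE] at hp
      exact (Finset.mem_filter.mp hp).2
    · intro a ha
      obtain ⟨p, hp, rfl⟩ := Finset.mem_image.mp ha
      exact ⟨(mem_pf.mp (hdP p hp)).2, ((hpfd p).mp hp).2.1, (hτ p (hdP p hp)).1, hKle p (hdP p hp)⟩
    · intro a ha b hb hab
      obtain ⟨p, hp, rfl⟩ := Finset.mem_image.mp ha
      obtain ⟨r, hr, rfl⟩ := Finset.mem_image.mp hb
      have h1 : p = r := hab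
      rw [h1]
    · -- the conditions which concern components of smaller scale
      intro a ha j hj i hi
      obtain ⟨p, hp, rfl⟩ := Finset.mem_image.mp ha
      have hj' : K j ≤ sc z N (D.nm p) := hj
      have hjj : j ≠ j₀ := by
        intro h
        rw [h, hK0] at hj'
        have := sc_lt z hN (D.nm p)
        omega
      have h1 := (hτ p (hdP p hp)).2 j i hi
      rw [← h1]
      unfold TT
      rw [hω2, hω3, hfil, hprodim, hprodim]
      have e1 : P.filter (fun r => r ≠ p ∧ D.cmp (τ r) = j) = (pf D d).filter (fun r => D.cmp (at' r).2 = j) ∪ q j := by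
        ext r
        rw [Finset.mem_filter, Finset.mem_union, Finset.mem_filter]
        constructor
        · rintro ⟨h2, h3, h4⟩
          by_cases hr : r ∈ T
          · right
            obtain ⟨j', _, hj''⟩ := Finset.mem_biUnion.mp hr
            have h5 := hqm j' r hj''
            have h6 : j' = j := h5.2.2.2.1.symm.trans h4
            rwa [h6] at hj''
          · left
            exact ⟨(hpfd r).mpr ⟨h2, hlow r h2 (by rw [h4]; exact hjj), hr⟩, h4⟩
        · rintro (⟨h2, h3⟩ | h2)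
          · have h4 : D.cmp (τ r) = j := h3
            refine ⟨hdP r h2, ?_, h4⟩
            intro h5
            have h6 := hKle r (hdP r h2)
            rw [h4, h5] at h6
            omega
          · have h5 := hqm j r h2
            refine ⟨h5.2.2.1, ?_, h5.2.2.2.1⟩
            intro h6
            have h7 := h5.2.2.2.2.1
            rw [h6] at h7
            omega
      have hdis : Disjoint ((pf D d).filter (fun r => D.cmp (at' r).2 = j)) (q j) := by
        rw [Finset.disjoint_left]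
        intro r h2 h3
        have h4 := ((hpfd r).mp (Finset.mem_filter.mp h2).1).2.2
        exact h4 (Finset.mem_biUnion.mpr ⟨j, Finset.mem_univ _, h3⟩)
      rw [← hP, e1, Finset.prod_union hdis]
    · intro j hj
      rw [hω3, hq0 j (Or.inr hj)]
      rfl
    · -- the special primes
      intro j hj hjN
      have hjj : j ≠ j₀ := by
        intro h
        rw [h, hK0] at hjN
        omega
      obtain ⟨Q, g0, g1, g2, g3⟩ := hq1 j (by push Not; exact ⟨hjj, hj⟩)
      have hQT : Q ∈ T := Finset.mem_biUnion.mpr ⟨j, Finset.mem_univ _, by rw [g0]; exact Finset.mem_singleton_self Q⟩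
      refine ⟨at' Q, by rw [hω3, g0, Finset.image_singleton], (mem_pf.mp g1).2, (Finset.mem_filter.mp (hTL hQT)).2,
        (hτ Q g1).1, g2, g3, ?_, ?_⟩
      · intro a ha
        obtain ⟨p, hp, rfl⟩ := Finset.mem_image.mp ha
        intro h
        have h1 : p = Q := h
        rw [h1] at hp
        exact ((hpfd Q).mp hp).2.2 hQT
      · intro a ha ha3 i hi
        obtain ⟨p, hp, rfl⟩ := Finset.mem_image.mp ha
        have h1 := (hτ p (hdP p hp)).2 j i hi
        have hQp : Q ≠ p := by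
          intro h
          rw [← h] at hp
          exact ((hpfd Q).mp hp).2.2 hQT
        rw [hω2, hfil, hprodim]
        have e1 : P.filter (fun r => r ≠ p ∧ D.cmp (τ r) = j) =
            insert Q ((pf D d).filter (fun r => (at' r).1 ≠ (at' p).1 ∧ D.cmp (at' r).2 = j)) := by
          ext r
          rw [Finset.mem_filter, Finset.mem_insert, Finset.mem_filter]
          constructor
          · rintro ⟨h2, h3, h4⟩
            by_cases hr : r ∈ T
            · left
              obtain ⟨j', _, hj''⟩ := Finset.mem_biUnion.mp hr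
              have h5 := hqm j' r hj''
              have h6 : j' = j := h5.2.2.2.1.symm.trans h4
              rw [h6, g0, Finset.mem_singleton] at hj''
              exact hj''
            · right
              exact ⟨(hpfd r).mpr ⟨h2, hlow r h2 (by rw [h4]; exact hjj), hr⟩, h3, h4⟩
          · rintro (rfl | ⟨h2, h3, h4⟩)
            · exact ⟨g1, hQp, g2⟩
            · exact ⟨hdP r h2, h3, h4⟩
        have hnot : Q ∉ (pf D d).filter (fun r => (at' r).1 ≠ (at' p).1 ∧ D.cmp (at' r).2 = j) := by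
          intro h
          exact ((hpfd Q).mp (Finset.mem_filter.mp h).1).2.2 hQT
        rw [← hP, e1, Finset.prod_insert hnot] at h1
        rw [eq_mul_inv_iff_mul_eq]
        exact h1
    · intro κ h1 h2
      rw [hω2, hfil]
      refine (Nat.pow_le_pow_left ?_ _).trans (hsm κ h1 h2)
      rw [Finset.prod_image (fun a _ b _ h => hat h)]
      refine Nat.le_of_dvd (Finset.prod_pos fun p _ => ?_) ?_
      · have := hS.two p
        omega
      refine Finset.prod_dvd_prod_of_subset _ _ _ (Finset.filter_subset_filter _ ?_)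
      exact fun p hp => hdP p hp
  · intro a ha
    obtain ⟨p, hp, rfl⟩ := Finset.mem_image.mp ha
    exact hdc (mem_pf.mp hp).1
  · intro j a ha
    rw [hω3] at ha
    obtain ⟨p, hp, rfl⟩ := Finset.mem_image.mp ha
    exact hTc (Finset.mem_biUnion.mpr ⟨j, Finset.mem_univ _, hp⟩)
  · rw [hω3, hq0 j₀ (Or.inl rfl)]
    rfl
  · rw [hNd, hNq, hdL]
    exact hM
  · rw [hNd, hNq, hdL, hLe]
    exact hcX
  · intro r hr
    obtain ⟨a, ha, rfl⟩ := Finset.mem_image.mp hr
    obtain ⟨p, hp, rfl⟩ := Finset.mem_image.mp ha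
    exact hdc (mem_pf.mp hp).1
  · exact Finset.filter_subset _ _
  · intro r hr
    obtain ⟨g1, g2, g3⟩ := heP r hr
    obtain ⟨g5, g6⟩ := oo_spec (o₀ := o₀) ⟨τ r, (hτ r g1).1, g3⟩
    refine ⟨(mem_pf.mp g1).2, fun h => ?_, g2, g5, g6⟩
    obtain ⟨a, ha, har⟩ := Finset.mem_image.mp h
    obtain ⟨p, hp, rfl⟩ := Finset.mem_image.mp ha
    have h1 : p = r := har
    rw [h1] at hp
    have := ((hpfd r).mp hp).2.1
    omega
  · -- the conditions for `j₀`
    intro a ha i hi
    obtain ⟨p, hp, rfl⟩ := Finset.mem_image.mp ha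
    have hpP := hdP p hp
    have h1 := (hτ p hpP).2 j₀ i hi
    have hpY : D.nm p ≤ Y := ((hpfd p).mp hp).2.1
    rw [hω2, hfil, hprodim]
    have e1 : P.filter (fun q' => q' ≠ p ∧ D.cmp (τ q') = j₀) =
        e ∪ (pf D d).filter (fun r => (at' r).1 ≠ (at' p).1 ∧ D.cmp (at' r).2 = j₀) := by
      ext r
      rw [Finset.mem_filter, Finset.mem_union, Finset.mem_filter (s := pf D d)]
      constructor
      · rintro ⟨h2, h3, h4⟩
        by_cases hr : D.nm r ≤ Y
        · right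
          refine ⟨(hpfd r).mpr ⟨h2, hr, fun h => ?_⟩, h3, h4⟩
          obtain ⟨j', _, hj'⟩ := Finset.mem_biUnion.mp h
          have h5 := hqm j' r hj'
          exact h5.1 (h5.2.2.2.1.symm.trans h4)
        · left
          exact Finset.mem_filter.mpr ⟨(mem_pf.mp h2).1, hr⟩
      · rintro (h2 | ⟨h2, h3, h4⟩)
        · obtain ⟨g1, g2, g3⟩ := heP r h2
          exact ⟨g1, fun h => by rw [h] at g2; omega, g3⟩
        · exact ⟨hdP r h2, h3, h4⟩
    have hdisj : Disjoint e ((pf D d).filter (fun r => (at' r).1 ≠ (at' p).1 ∧ D.cmp (at' r).2 = j₀)) := by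
      rw [Finset.disjoint_left]
      intro r h2 h3
      have g1 := (heP r h2).2.1
      have g2 := ((hpfd r).mp (Finset.mem_filter.mp h3).1).2.1
      omega
    rw [← hP, e1, Finset.prod_union hdisj] at h1
    rw [eq_mul_inv_iff_mul_eq, ← h1]
    congr 1
    refine Finset.prod_congr rfl fun r hr => ?_
    obtain ⟨g1, g2, g3⟩ := heP r hr
    have g4 := (hτ r g1).1
    obtain ⟨g5, g6⟩ := oo_spec (o₀ := o₀) ⟨τ r, g4, g3⟩
    exact hsp.chi r _ g5 _ g4 g6 g3 p i
  · -- the support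
    have h1 : ω.2.1.image Prod.fst = pf D d := by
      rw [hω2, Finset.image_image]
      exact Finset.image_id
    have h2 : (Finset.univ.biUnion fun j => (ω.2.2 j).image Prod.fst) = T := by
      rw [hT]
      refine Finset.biUnion_congr rfl fun j _ => ?_
      rw [hω3, Finset.image_image]
      exact Finset.image_id
    unfold supp
    rw [h1, h2, hω1, Finset.union_comm dE, hpfin, hd, Finset.sdiff_union_of_subset hTL, hL, he]
    exact Finset.filter_union_filter_not_eq _ c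

end Pool.Agent.PD99
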